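import Mathlib

/-!
# Common hypercyclic vectors along the graph of the Takagi function
-/

namespace Pool.Agent.Results.MP_c0f49b_an.TakagiGraph

open Filter Topology

/-- Distance to the nearest integer. -/
noncomputable def nint (x : ℝ) : ℝ := |x - round x|

/-- The Takagi function. -/
noncomputable def takagi (t : ℝ) : ℝ := ∑' n : ℕ, (1 / 2) ^ n * nint (2 ^ n * t)

section Defs

variable (𝕜 : Type) [RCLike 𝕜]

/-- The space `c₀(ℕ)` of sequences tending to zero, with the sup norm. -/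
abbrev X := ZeroAtInftyContinuousMap ℕ 𝕜

/-- The successor as a proper map of `ℕ`. -/
def succC : CocompactMap ℕ ℕ where
  toFun n := n + 1
  continuous_toFun := continuous_of_discreteTopology
  cocompact_tendsto' := by
    rw [cocompact_eq_cofinite]
    exact Function.Injective.tendsto_cofinite (fun _ _ h => Nat.succ_injective h)

variable {𝕜}

theorem norm_le {f : X 𝕜} {C : ℝ} (hC : 0 ≤ C) : ‖f‖ ≤ C ↔ ∀ n, ‖f n‖ ≤ C := by
  rw [← ZeroAtInftyContinuousMap.norm_toBCF_eq_norm, BoundedContinuousFunction.norm_le hC]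
  rfl

theorem apply_le (f : X 𝕜) (n : ℕ) : ‖f n‖ ≤ ‖f‖ := (norm_le (norm_nonneg f)).1 le_rfl n

variable (𝕜)

/-- The backward shift `B (x₁, x₂, x₃, …) = (x₂, x₃, …)` on `c₀(ℕ)`. -/
noncomputable def B : X 𝕜 →L[𝕜] X 𝕜 :=
  (ZeroAtInftyContinuousMap.compLinearMap (R := 𝕜) (δ := 𝕜) succC).mkContinuous 1 (by
    intro f
    rw [one_mul, norm_le (norm_nonneg _)]
    intro n
    exact apply_le f (n + 1))

/-- The operator `e^x B × e^y B` on `c₀(ℕ) × c₀(ℕ)`. -/
noncomputable def T (x y : ℝ) : X 𝕜 × X 𝕜 →L[𝕜] X 𝕜 × X 𝕜 :=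
  (((Real.exp x : ℝ) : 𝕜) • B 𝕜).prodMap (((Real.exp y : ℝ) : 𝕜) • B 𝕜)

end Defs

/-! ### The Takagi function -/

theorem nint_eq (x : ℝ) : nint x = min (Int.fract x) (1 - Int.fract x) := abs_sub_round_eq_min x

theorem nint_nonneg (x : ℝ) : 0 ≤ nint x := abs_nonneg _

theorem nint_le (x : ℝ) : nint x ≤ 1 / 2 := abs_sub_round x

theorem nint_add_nat (x : ℝ) (n : ℕ) : nint (n + x) = nint x := by
  rw [nint_eq, nint_eq, Int.fract_natCast_add]

theorem nint_left {x : ℝ} (h0 : 0 ≤ x) (h1 : x ≤ 1 / 2) : nint x = x := by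
  rw [nint_eq, Int.fract_eq_self.2 ⟨h0, by linarith⟩]
  exact min_eq_left (by linarith)

theorem nint_right {x : ℝ} (h0 : 1 / 2 ≤ x) (h1 : x ≤ 1) : nint x = 1 - x := by
  rcases eq_or_lt_of_le h1 with h | h
  · rw [h, nint_eq]
    simp
  · rw [nint_eq, Int.fract_eq_self.2 ⟨by linarith, h⟩]
    exact min_eq_right (by linarith)

theorem nint_lip (x y : ℝ) : |nint x - nint y| ≤ |x - y| := by
  have key : ∀ x y : ℝ, nint x ≤ nint y + |x - y| := by
    intro x y
    have h1 : nint x ≤ |x - round y| := round_le x (round y)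
    have h2 : |x - round y| ≤ |x - y| + |y - round y| := by
      have : x - (round y : ℝ) = (x - y) + (y - round y) := by ring
      rw [this]
      exact abs_add_le _ _
    unfold nint at *
    linarith
  rw [abs_le]
  have h1 := key x y
  have h2 := key y x
  rw [abs_sub_comm y x] at h2
  constructor <;> linarith

theorem summable_takagi (t : ℝ) : Summable fun n : ℕ => (1 / 2 : ℝ) ^ n * nint (2 ^ n * t) := by
  apply Summable.of_nonneg_of_le (fun n => mul_nonneg (by positivity) (nint_nonneg _))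
    (g := fun n => (1 / 2 : ℝ) ^ n * nint (2 ^ n * t)) (f := fun n => (1 / 2 : ℝ) ^ n)
  · intro n
    have h1 := nint_le (2 ^ n * t)
    have h2 : (0 : ℝ) ≤ (1 / 2) ^ n := by positivity
    nlinarith
  · exact summable_geometric_two

theorem takagi_nonneg (t : ℝ) : 0 ≤ takagi t :=
  tsum_nonneg fun n => mul_nonneg (by positivity) (nint_nonneg _)

theorem takagi_le_one (t : ℝ) : takagi t ≤ 1 := by
  have h1 : takagi t ≤ ∑' n : ℕ, (1 / 2 : ℝ) ^ n * (1 / 2) := by
    apply Summable.tsum_le_tsum _ (summable_takagi t) (summable_geometric_two.mul_right _)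
    intro n
    exact mul_le_mul_of_nonneg_left (nint_le _) (by positivity)
  rw [tsum_mul_right, tsum_geometric_two] at h1
  linarith

theorem takagi_half {t : ℝ} (h0 : 0 ≤ t) (h1 : t ≤ 1) : takagi (t / 2) = t / 2 + takagi t / 2 := by
  unfold takagi
  rw [(summable_takagi (t / 2)).tsum_eq_zero_add]
  have e0 : (1 / 2 : ℝ) ^ 0 * nint (2 ^ 0 * (t / 2)) = t / 2 := by
    rw [pow_zero, pow_zero, one_mul, one_mul, nint_left (by linarith) (by linarith)]
  rw [e0]
  have e1 : ∀ n : ℕ, (1 / 2 : ℝ) ^ (n + 1) * nint (2 ^ (n + 1) * (t / 2)) =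
      (1 / 2) * ((1 / 2) ^ n * nint (2 ^ n * t)) := by
    intro n
    have : (2 : ℝ) ^ (n + 1) * (t / 2) = 2 ^ n * t := by rw [pow_succ]; ring
    rw [this, pow_succ]; ring
  simp only [e1]
  rw [tsum_mul_left]
  ring

theorem takagi_half' {t : ℝ} (h0 : 0 ≤ t) (h1 : t ≤ 1) :
    takagi ((1 + t) / 2) = (1 - t) / 2 + takagi t / 2 := by
  unfold takagi
  rw [(summable_takagi ((1 + t) / 2)).tsum_eq_zero_add]
  have e0 : (1 / 2 : ℝ) ^ 0 * nint (2 ^ 0 * ((1 + t) / 2)) = (1 - t) / 2 := by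
    rw [pow_zero, pow_zero, one_mul, one_mul, nint_right (by linarith) (by linarith)]
    ring
  rw [e0]
  have e1 : ∀ n : ℕ, (1 / 2 : ℝ) ^ (n + 1) * nint (2 ^ (n + 1) * ((1 + t) / 2)) =
      (1 / 2) * ((1 / 2) ^ n * nint (2 ^ n * t)) := by
    intro n
    have : (2 : ℝ) ^ (n + 1) * ((1 + t) / 2) = ((2 ^ n : ℕ) : ℝ) + 2 ^ n * t := by
      push_cast; rw [pow_succ]; ring
    rw [this, nint_add_nat, pow_succ]; ring
  simp only [e1]
  rw [tsum_mul_left]
  ring

theorem takagi_modulus {s t : ℝ} {m : ℕ} (h : |s - t| ≤ (1 / 2) ^ m) :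
    |takagi s - takagi t| ≤ (m + 1) * (1 / 2) ^ m := by
  unfold takagi
  rw [← (summable_takagi s).tsum_sub (summable_takagi t)]
  set f : ℕ → ℝ := fun n => (1 / 2) ^ n * nint (2 ^ n * s) - (1 / 2) ^ n * nint (2 ^ n * t) with hf
  have hfs : Summable f := (summable_takagi s).sub (summable_takagi t)
  have h1 : ∀ n, |f n| ≤ (1 / 2) ^ m := by
    intro n
    simp only [hf]
    rw [← mul_sub, abs_mul, abs_of_nonneg (by positivity : (0 : ℝ) ≤ (1 / 2) ^ n)]
    have h2 := nint_lip (2 ^ n * s) (2 ^ n * t)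
    rw [← mul_sub, abs_mul, abs_of_nonneg (by positivity : (0 : ℝ) ≤ 2 ^ n)] at h2
    have h3 : (1 / 2 : ℝ) ^ n * (2 ^ n * |s - t|) = |s - t| := by
      rw [← mul_assoc, ← mul_pow]; norm_num
    calc (1 / 2 : ℝ) ^ n * |nint (2 ^ n * s) - nint (2 ^ n * t)|
        ≤ (1 / 2) ^ n * (2 ^ n * |s - t|) := mul_le_mul_of_nonneg_left h2 (by positivity)
      _ = |s - t| := h3
      _ ≤ _ := h
  have h2 : ∀ n, |f n| ≤ (1 / 2) ^ n * (1 / 2) := by
    intro n
    simp only [hf]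
    rw [← mul_sub, abs_mul, abs_of_nonneg (by positivity : (0 : ℝ) ≤ (1 / 2) ^ n)]
    apply mul_le_mul_of_nonneg_left _ (by positivity)
    have a1 := nint_nonneg (2 ^ n * s)
    have a2 := nint_nonneg (2 ^ n * t)
    have a3 := nint_le (2 ^ n * s)
    have a4 := nint_le (2 ^ n * t)
    rw [abs_le]
    constructor <;> linarith
  rw [← hfs.sum_add_tsum_nat_add m]
  have h3 : |∑ i ∈ Finset.range m, f i| ≤ m * (1 / 2) ^ m := by
    refine (Finset.abs_sum_le_sum_abs _ _).trans ?_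
    refine (Finset.sum_le_sum fun i _ => h1 i).trans ?_
    rw [Finset.sum_const, Finset.card_range, nsmul_eq_mul]
  have h4 : |∑' i, f (i + m)| ≤ (1 / 2) ^ m := by
    have h5 : HasSum (fun i : ℕ => (1 / 2 : ℝ) ^ m * (1 / 2) * (1 / 2) ^ i)
        ((1 / 2) ^ m * (1 / 2) * 2) := by
      have := hasSum_geometric_two.mul_left ((1 / 2 : ℝ) ^ m * (1 / 2))
      exact this
    have h6 := tsum_of_norm_bounded h5 (f := fun i => f (i + m)) (by
      intro i
      rw [Real.norm_eq_abs]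
      refine (h2 (i + m)).trans (le_of_eq ?_)
      rw [pow_add]; ring)
    rw [Real.norm_eq_abs] at h6
    linarith
  refine (abs_add_le _ _).trans ?_
  linarith

theorem takagi_zero : takagi 0 = 0 := by
  have := takagi_half (t := 0) le_rfl zero_le_one
  rw [zero_div] at this
  linarith

theorem takagi_one : takagi 1 = 0 := by
  have := takagi_half' (t := 1) zero_le_one le_rfl
  norm_num at this
  linarith

/-- Increments over dyadic intervals. -/
noncomputable def inc (m j : ℕ) : ℝ :=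
  takagi (((j + 1 : ℕ) : ℝ) / 2 ^ m) - takagi ((j : ℝ) / 2 ^ m)

theorem dyadic_mem {m j : ℕ} (h : j ≤ 2 ^ m) : 0 ≤ (j : ℝ) / 2 ^ m ∧ (j : ℝ) / 2 ^ m ≤ 1 := by
  refine ⟨by positivity, ?_⟩
  rw [div_le_one (by positivity)]
  exact_mod_cast h

theorem inc_left {m j : ℕ} (h : j < 2 ^ m) :
    inc (m + 1) j = (1 / 2) ^ (m + 1) + inc m j / 2 := by
  unfold inc
  obtain ⟨a1, a2⟩ := dyadic_mem (m := m) (j := j) h.le
  obtain ⟨b1, b2⟩ := dyadic_mem (m := m) (j := j + 1) h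
  have e1 := takagi_half a1 a2
  have e2 := takagi_half b1 b2
  have c1 : (j : ℝ) / 2 ^ m / 2 = (j : ℝ) / 2 ^ (m + 1) := by rw [pow_succ]; field_simp
  have c2 : ((j + 1 : ℕ) : ℝ) / 2 ^ m / 2 = ((j + 1 : ℕ) : ℝ) / 2 ^ (m + 1) := by
    rw [pow_succ]; field_simp
  rw [c1] at e1
  rw [c2] at e2
  rw [e1, e2, one_div_pow]
  push_cast
  rw [pow_succ]
  field_simp
  ring

theorem inc_right {m j : ℕ} (h : j < 2 ^ m) :
    inc (m + 1) (2 ^ m + j) = -(1 / 2) ^ (m + 1) + inc m j / 2 := by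
  unfold inc
  obtain ⟨a1, a2⟩ := dyadic_mem (m := m) (j := j) h.le
  obtain ⟨b1, b2⟩ := dyadic_mem (m := m) (j := j + 1) h
  have e1 := takagi_half' a1 a2
  have e2 := takagi_half' b1 b2
  have c1 : (1 + (j : ℝ) / 2 ^ m) / 2 = ((2 ^ m + j : ℕ) : ℝ) / 2 ^ (m + 1) := by
    rw [pow_succ]; push_cast; field_simp
  have c2 : (1 + ((j + 1 : ℕ) : ℝ) / 2 ^ m) / 2 = ((2 ^ m + j + 1 : ℕ) : ℝ) / 2 ^ (m + 1) := by
    rw [pow_succ]; push_cast; field_simp; ring
  rw [c1] at e1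
  rw [c2] at e2
  rw [e1, e2, one_div_pow]
  push_cast
  rw [pow_succ]
  field_simp
  ring

theorem second_moment (m : ℕ) : ∑ j ∈ Finset.range (2 ^ m), (inc m j) ^ 2 = m * (1 / 2) ^ m := by
  induction m with
  | zero => simp [inc, takagi_zero, takagi_one]
  | succ m ih =>
    have e : 2 ^ (m + 1) = 2 ^ m + 2 ^ m := by rw [pow_succ]; ring
    rw [e, Finset.sum_range_add]
    have h1 : ∑ x ∈ Finset.range (2 ^ m), inc (m + 1) x ^ 2 =
        ∑ x ∈ Finset.range (2 ^ m), ((1 / 2) ^ (m + 1) + inc m x / 2) ^ 2 :=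
      Finset.sum_congr rfl fun x hx => by rw [inc_left (Finset.mem_range.1 hx)]
    have h2 : ∑ x ∈ Finset.range (2 ^ m), inc (m + 1) (2 ^ m + x) ^ 2 =
        ∑ x ∈ Finset.range (2 ^ m), (-(1 / 2) ^ (m + 1) + inc m x / 2) ^ 2 :=
      Finset.sum_congr rfl fun x hx => by rw [inc_right (Finset.mem_range.1 hx)]
    rw [h1, h2, ← Finset.sum_add_distrib]
    have h3 : ∀ x, ((1 / 2 : ℝ) ^ (m + 1) + inc m x / 2) ^ 2 +
        (-(1 / 2) ^ (m + 1) + inc m x / 2) ^ 2 = 2 * ((1 / 2) ^ (m + 1)) ^ 2 + inc m x ^ 2 / 2 := by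
      intro x; ring
    simp only [h3]
    rw [Finset.sum_add_distrib, ← Finset.sum_div, ih, Finset.sum_const, Finset.card_range,
      nsmul_eq_mul]
    push_cast
    have h4 : (2 : ℝ) ^ m * (1 / 2) ^ m = 1 := by rw [← mul_pow]; norm_num
    have h5 : (2 : ℝ) ^ m * (2 * ((1 / 2) ^ (m + 1)) ^ 2) = (1 / 2) ^ (m + 1) := by
      rw [pow_succ]
      calc (2 : ℝ) ^ m * (2 * ((1 / 2) ^ m * (1 / 2)) ^ 2)
          = ((2 : ℝ) ^ m * (1 / 2) ^ m) * (1 / 2) ^ m * (1 / 2) := by ring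
        _ = _ := by rw [h4]; ring
    rw [h5, pow_succ]
    ring

theorem variation (m : ℕ) : ∑ j ∈ Finset.range (2 ^ m), |inc m j| ≤ Real.sqrt m := by
  apply Real.le_sqrt_of_sq_le
  have h := sq_sum_le_card_mul_sum_sq (s := Finset.range (2 ^ m)) (f := fun j => |inc m j|)
  simp only [sq_abs] at h
  rw [second_moment, Finset.card_range] at h
  refine h.trans (le_of_eq ?_)
  push_cast
  have h4 : (2 : ℝ) ^ m * (1 / 2) ^ m = 1 := by rw [← mul_pow]; norm_num
  calc (2 : ℝ) ^ m * (m * (1 / 2) ^ m) = m * ((2 : ℝ) ^ m * (1 / 2) ^ m) := by ring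
    _ = m := by rw [h4, mul_one]

/-! ### Covering the graph in time -/

/-- The length of the dyadic polygon up to a vertex. -/
noncomputable def F (m j : ℕ) : ℝ := ∑ i ∈ Finset.range j, ((1 / 2) ^ m + |inc m i|)

theorem F_mono (m : ℕ) {i j : ℕ} (h : i ≤ j) : F m i ≤ F m j := by
  apply Finset.sum_le_sum_of_subset_of_nonneg (Finset.range_mono h)
  intro k _ _
  positivity

theorem F_full (m : ℕ) : F m (2 ^ m) ≤ 1 + Real.sqrt m := by
  unfold F
  rw [Finset.sum_add_distrib, Finset.sum_const, Finset.card_range, nsmul_eq_mul]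
  have h4 : (2 : ℝ) ^ m * (1 / 2) ^ m = 1 := by rw [← mul_pow]; norm_num
  push_cast
  rw [h4]
  linarith [variation m]

theorem F_dist (m : ℕ) {i j : ℕ} (h : i ≤ j) :
    |(i : ℝ) / 2 ^ m - j / 2 ^ m| ≤ F m j - F m i ∧
    |takagi ((i : ℝ) / 2 ^ m) - takagi (j / 2 ^ m)| ≤ F m j - F m i := by
  induction j, h using Nat.le_induction with
  | base => simp
  | succ j hij ih =>
    have e : F m (j + 1) = F m j + ((1 / 2) ^ m + |inc m j|) := by
      unfold F; rw [Finset.sum_range_succ]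
    have hp : (0 : ℝ) < (1 / 2) ^ m := by positivity
    have hinc := abs_nonneg (inc m j)
    rw [e]
    constructor
    · have h1 : (i : ℝ) / 2 ^ m - ((j + 1 : ℕ) : ℝ) / 2 ^ m =
          ((i : ℝ) / 2 ^ m - j / 2 ^ m) + -((1 / 2) ^ m) := by
        push_cast
        rw [one_div_pow]
        ring
      rw [h1]
      refine (abs_add_le _ _).trans ?_
      rw [abs_neg, abs_of_pos hp]
      linarith [ih.1]
    · have h1 : takagi ((i : ℝ) / 2 ^ m) - takagi (((j + 1 : ℕ) : ℝ) / 2 ^ m) =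
          (takagi ((i : ℝ) / 2 ^ m) - takagi (j / 2 ^ m)) + -(inc m j) := by
        unfold inc
        ring
      rw [h1]
      refine (abs_add_le _ _).trans ?_
      rw [abs_neg]
      linarith [ih.2]

theorem F_dist' (m i j : ℕ) :
    |(i : ℝ) / 2 ^ m - j / 2 ^ m| ≤ |F m j - F m i| ∧
    |takagi ((i : ℝ) / 2 ^ m) - takagi (j / 2 ^ m)| ≤ |F m j - F m i| := by
  rcases le_total i j with h | h
  · have := F_dist m h
    exact ⟨this.1.trans (le_abs_self _), this.2.trans (le_abs_self _)⟩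
  · have := F_dist m h
    rw [abs_sub_comm, abs_sub_comm (takagi _)]
    rw [abs_sub_comm (F m j)]
    exact ⟨this.1.trans (le_abs_self _), this.2.trans (le_abs_self _)⟩

/-- The times. -/
def nn (n₀ N i : ℕ) : ℕ := n₀ + i * N

/-- The time budget. -/
noncomputable def S (c : ℝ) (n₀ N k : ℕ) : ℝ := ∑ i ∈ Finset.range k, c / nn n₀ N i

theorem S_diff {c : ℝ} (hc : 0 < c) {n₀ N : ℕ} (hn : 1 ≤ n₀) {i k : ℕ} (h : i ≤ k) :
    (nn n₀ N i : ℝ) * (S c n₀ N k - S c n₀ N i) ≤ (k - i) * c := by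
  induction k, h using Nat.le_induction with
  | base => simp
  | succ k hik ih =>
    have e : S c n₀ N (k + 1) = S c n₀ N k + c / nn n₀ N k := by
      unfold S; rw [Finset.sum_range_succ]
    rw [e]
    have h0 : (0 : ℝ) < nn n₀ N k := by
      have : 0 < nn n₀ N k := by unfold nn; omega
      exact_mod_cast this
    have h1 : (nn n₀ N i : ℝ) ≤ nn n₀ N k := by
      have : nn n₀ N i ≤ nn n₀ N k := by
        unfold nn
        exact Nat.add_le_add_left (Nat.mul_le_mul_right _ hik) _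
      exact_mod_cast this
    have h2 : (nn n₀ N i : ℝ) * (c / nn n₀ N k) ≤ c := by
      rw [mul_div_assoc', div_le_iff₀ h0]
      nlinarith
    push_cast
    nlinarith

theorem S_mono {c : ℝ} (hc : 0 < c) (n₀ N : ℕ) {i k : ℕ} (h : i ≤ k) :
    S c n₀ N i ≤ S c n₀ N k := by
  apply Finset.sum_le_sum_of_subset_of_nonneg (Finset.range_mono h)
  intro k _ _
  positivity

theorem S_lower {c : ℝ} (hc : 0 < c) {n₀ N : ℕ} (hn : 1 ≤ n₀) (h : ℕ) :
    c / (n₀ + N) * (h * Real.log 2) ≤ S c n₀ N (2 ^ h) := by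
  have h1 : ∀ i : ℕ, c / (n₀ + N) * (1 / ((i : ℝ) + 1)) ≤ c / nn n₀ N i := by
    intro i
    have a0 : (1 : ℝ) ≤ n₀ := by exact_mod_cast hn
    have a1 : (0 : ℝ) ≤ N := Nat.cast_nonneg _
    have a2 : (0 : ℝ) ≤ i := Nat.cast_nonneg _
    rw [div_mul_div_comm, mul_one]
    apply div_le_div_of_nonneg_left hc.le
    · unfold nn
      push_cast
      nlinarith
    · unfold nn
      push_cast
      nlinarith
  have h2 := log_add_one_le_harmonic (2 ^ h)
  have h3 : ((harmonic (2 ^ h) : ℚ) : ℝ) = ∑ i ∈ Finset.range (2 ^ h), 1 / ((i : ℝ) + 1) := by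
    unfold harmonic
    push_cast
    apply Finset.sum_congr rfl
    intro i _
    rw [one_div]
  rw [h3] at h2
  have h4 : (h : ℝ) * Real.log 2 ≤ Real.log (((2 ^ h : ℕ) : ℝ) + 1) := by
    rw [← Real.log_pow]
    apply Real.log_le_log (by positivity)
    push_cast
    linarith
  have h5 : 0 ≤ c / (n₀ + N) := by positivity
  unfold S
  calc c / (n₀ + N) * (h * Real.log 2)
      ≤ c / (n₀ + N) * ∑ i ∈ Finset.range (2 ^ h), 1 / ((i : ℝ) + 1) := by
        apply mul_le_mul_of_nonneg_left _ h5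
        push_cast at h2 h4
        linarith
    _ = ∑ i ∈ Finset.range (2 ^ h), c / (n₀ + N) * (1 / ((i : ℝ) + 1)) := by rw [Finset.mul_sum]
    _ ≤ _ := Finset.sum_le_sum fun i _ => h1 i

/-- Choice of the scales. -/
theorem exists_scale {c : ℝ} (hc : 0 < c) {n₀ N : ℕ} (hn : 1 ≤ n₀) : ∃ h : ℕ,
    (nn n₀ N (2 ^ h) : ℝ) * ((2 * h : ℕ) + 1) * (1 / 2) ^ (2 * h) ≤ c ∧
    1 + Real.sqrt ((2 * h : ℕ) : ℝ) < S c n₀ N (2 ^ h) := by
  have hN0 : (0 : ℝ) < n₀ + N := by
    have : (1 : ℝ) ≤ n₀ := by exact_mod_cast hn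
    have : (0 : ℝ) ≤ N := Nat.cast_nonneg _
    linarith
  -- first condition
  have h1 : Tendsto (fun h : ℕ => (n₀ + N : ℝ) * ((2 * h + 1) * (1 / 2) ^ h)) atTop (𝓝 0) := by
    have a1 := tendsto_self_mul_const_pow_of_lt_one (r := (1 / 2 : ℝ)) (by norm_num) (by norm_num)
    have a2 : Tendsto (fun h : ℕ => (1 / 2 : ℝ) ^ h) atTop (𝓝 0) :=
      tendsto_pow_atTop_nhds_zero_of_lt_one (by norm_num) (by norm_num)
    have a3 := ((a1.const_mul 2).add a2).const_mul (n₀ + N : ℝ)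
    rw [mul_zero, add_zero, mul_zero] at a3
    refine a3.congr fun h => ?_
    ring
  have h2 := h1.eventually (ge_mem_nhds hc)
  -- second condition
  set κ : ℝ := c / (n₀ + N) * Real.log 2 with hκ
  have hκ0 : 0 < κ := mul_pos (div_pos hc hN0) (Real.log_pos (by norm_num))
  have h3 : ∀ᶠ h : ℕ in atTop, max (2 / κ) (8 / κ ^ 2) < (h : ℝ) :=
    tendsto_natCast_atTop_atTop.eventually_gt_atTop _
  obtain ⟨h, hh1, hh2⟩ := (h2.and h3).exists
  refine ⟨h, ?_, ?_⟩
  · refine le_trans ?_ hh1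
    have b1 : (nn n₀ N (2 ^ h) : ℝ) ≤ (n₀ + N) * 2 ^ h := by
      unfold nn
      push_cast
      have : (1 : ℝ) ≤ 2 ^ h := one_le_pow₀ (by norm_num)
      have : (0 : ℝ) ≤ n₀ := Nat.cast_nonneg _
      nlinarith
    have b2 : (1 / 2 : ℝ) ^ (2 * h) = (1 / 2) ^ h * (1 / 2) ^ h := by
      rw [two_mul, pow_add]
    have b3 : (2 : ℝ) ^ h * (1 / 2) ^ h = 1 := by rw [← mul_pow]; norm_num
    calc (nn n₀ N (2 ^ h) : ℝ) * ((2 * h : ℕ) + 1) * (1 / 2) ^ (2 * h)
        ≤ ((n₀ + N) * 2 ^ h) * ((2 * h : ℕ) + 1) * (1 / 2) ^ (2 * h) := by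
          apply mul_le_mul_of_nonneg_right _ (by positivity)
          exact mul_le_mul_of_nonneg_right b1 (by positivity)
      _ = (n₀ + N) * ((2 * h + 1) * (1 / 2) ^ h) * (2 ^ h * (1 / 2) ^ h) := by
          rw [b2]; push_cast; ring
      _ = _ := by rw [b3, mul_one]
  · refine lt_of_lt_of_le ?_ (S_lower hc hn h)
    have b1 : 2 / κ < h := lt_of_le_of_lt (le_max_left _ _) hh2
    have b2 : 8 / κ ^ 2 < h := lt_of_le_of_lt (le_max_right _ _) hh2
    have b0 : (0 : ℝ) < h := lt_trans (by positivity) b1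
    have b3 : c / (n₀ + N) * (h * Real.log 2) = κ * h := by rw [hκ]; ring
    rw [b3]
    rw [div_lt_iff₀ hκ0] at b1
    rw [div_lt_iff₀ (by positivity)] at b2
    have b4 : Real.sqrt ((2 * h : ℕ) : ℝ) ≤ κ * h / 2 := by
      apply Real.sqrt_le_iff.2
      refine ⟨by positivity, ?_⟩
      push_cast
      nlinarith
    nlinarith

/-- The centres. -/
theorem centres {c : ℝ} (hc : 0 < c) {n₀ N : ℕ} (hn : 1 ≤ n₀) :
    ∃ (r : ℕ) (on : ℕ → Prop) (s : ℕ → ℝ), (∀ k, 0 ≤ s k ∧ s k ≤ 1) ∧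
      ∀ t : ℝ, 0 ≤ t → t ≤ 1 → ∃ i < r, on i ∧ ∀ k, i ≤ k → on k →
        (nn n₀ N i : ℝ) * |t - s k| ≤ (k - i + 2) * c ∧
        (nn n₀ N i : ℝ) * |takagi t - takagi (s k)| ≤ (k - i + 2) * c := by
  classical
  obtain ⟨h, h1, h2⟩ := exists_scale hc (N := N) hn
  set m := 2 * h with hm
  set r := 2 ^ h with hr
  set on : ℕ → Prop := fun k => ∃ j, j ≤ 2 ^ m ∧ S c n₀ N k ≤ F m j ∧ F m j < S c n₀ N (k + 1)
    with hon
  have hJ : ∀ k, ∃ j, j ≤ 2 ^ m ∧ (on k → S c n₀ N k ≤ F m j ∧ F m j < S c n₀ N (k + 1)) := by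
    intro k
    by_cases hk : on k
    · obtain ⟨j, a, b⟩ := id hk
      exact ⟨j, a, fun _ => b⟩
    · exact ⟨0, Nat.zero_le _, fun h => absurd h hk⟩
  choose J hJ1 hJ2 using hJ
  refine ⟨r, on, fun k => (J k : ℝ) / 2 ^ m, fun k => dyadic_mem (hJ1 k), ?_⟩
  intro t ht0 ht1
  -- the vertex
  set j := ⌊t * 2 ^ m⌋₊ with hj
  have hj1 : (j : ℝ) ≤ t * 2 ^ m := Nat.floor_le (by positivity)
  have hj2 : t * 2 ^ m < j + 1 := Nat.lt_floor_add_one _
  have hp : (0 : ℝ) < 2 ^ m := by positivity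
  have hjm : j ≤ 2 ^ m := by
    have : (j : ℝ) ≤ ((2 ^ m : ℕ) : ℝ) := by
      push_cast
      nlinarith
    exact_mod_cast this
  have hclose : |t - (j : ℝ) / 2 ^ m| ≤ (1 / 2) ^ m := by
    have e : t - (j : ℝ) / 2 ^ m = (t * 2 ^ m - j) / 2 ^ m := by field_simp
    rw [e, abs_div, abs_of_pos hp, one_div_pow]
    apply div_le_div_of_nonneg_right _ hp.le
    rw [abs_le]
    constructor <;> linarith
  have hclose2 := takagi_modulus hclose
  -- the time
  have hex : ∃ k, F m j < S c n₀ N (k + 1) := by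
    refine ⟨r, ?_⟩
    calc F m j ≤ F m (2 ^ m) := F_mono m hjm
      _ ≤ 1 + Real.sqrt m := F_full m
      _ < S c n₀ N r := h2
      _ ≤ _ := S_mono hc n₀ N (Nat.le_succ r)
  set i := Nat.find hex with hi
  have hi1 : F m j < S c n₀ N (i + 1) := Nat.find_spec hex
  have hi2 : S c n₀ N i ≤ F m j := by
    rcases Nat.eq_zero_or_pos i with h0 | h0
    · rw [h0]
      have : S c n₀ N 0 = 0 := by simp [S]
      rw [this]
      exact Finset.sum_nonneg fun _ _ => by positivity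
    · have := Nat.find_min hex (m := i - 1) (by omega)
      rw [not_lt] at this
      have e : i - 1 + 1 = i := by omega
      rw [e] at this
      exact this
  have hir : i < r := by
    by_contra hcon
    push Not at hcon
    have : S c n₀ N r ≤ S c n₀ N i := S_mono hc n₀ N hcon
    have a1 : F m j ≤ F m (2 ^ m) := F_mono m hjm
    have a2 := F_full m
    linarith
  refine ⟨i, hir, ⟨j, hjm, hi2, hi1⟩, fun k hik hk => ?_⟩
  obtain ⟨b1, b2⟩ := hJ2 k hk
  have hd := F_dist' m j (J k)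
  have hn0 : (0 : ℝ) < nn n₀ N i := by
    have : 0 < nn n₀ N i := by unfold nn; omega
    exact_mod_cast this
  have hF : |F m (J k) - F m j| ≤ S c n₀ N (k + 1) - S c n₀ N i := by
    have c1 : S c n₀ N (i + 1) ≤ S c n₀ N (k + 1) := S_mono hc n₀ N (by omega)
    have c2 : S c n₀ N i ≤ S c n₀ N k := S_mono hc n₀ N hik
    rw [abs_le]
    constructor <;> linarith
  have hS := S_diff hc (N := N) hn (show i ≤ k + 1 by omega)
  have hnS : (nn n₀ N i : ℝ) * |F m (J k) - F m j| ≤ (k - i + 1) * c := by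
    refine (mul_le_mul_of_nonneg_left hF hn0.le).trans (hS.trans (le_of_eq ?_))
    push_cast; ring
  have hni : (nn n₀ N i : ℝ) ≤ nn n₀ N r := by
    have : nn n₀ N i ≤ nn n₀ N r := by
      unfold nn
      exact Nat.add_le_add_left (Nat.mul_le_mul_right _ hir.le) _
    exact_mod_cast this
  have hpm : (0 : ℝ) < (1 / 2) ^ m := by positivity
  have hm1 : (0 : ℝ) ≤ m := Nat.cast_nonneg _
  have herr : (nn n₀ N i : ℝ) * ((m + 1) * (1 / 2) ^ m) ≤ c := by
    refine le_trans ?_ h1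
    rw [mul_assoc]
    exact mul_le_mul_of_nonneg_right hni (by positivity)
  have herr0 : (nn n₀ N i : ℝ) * (1 / 2) ^ m ≤ c := by
    refine le_trans (mul_le_mul_of_nonneg_left ?_ hn0.le) herr
    nlinarith
  constructor
  · have e : t - (J k : ℝ) / 2 ^ m = (t - (j : ℝ) / 2 ^ m) + ((j : ℝ) / 2 ^ m - (J k : ℝ) / 2 ^ m) := by
      ring
    rw [e]
    calc (nn n₀ N i : ℝ) * |(t - (j : ℝ) / 2 ^ m) + ((j : ℝ) / 2 ^ m - (J k : ℝ) / 2 ^ m)|
        ≤ (nn n₀ N i : ℝ) * ((1 / 2) ^ m + |F m (J k) - F m j|) := by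
          apply mul_le_mul_of_nonneg_left _ hn0.le
          exact (abs_add_le _ _).trans (add_le_add hclose hd.1)
      _ ≤ c + (k - i + 1) * c := by
          rw [mul_add]
          exact add_le_add herr0 hnS
      _ = _ := by ring
  · have e : takagi t - takagi ((J k : ℝ) / 2 ^ m) = (takagi t - takagi ((j : ℝ) / 2 ^ m)) +
        (takagi ((j : ℝ) / 2 ^ m) - takagi ((J k : ℝ) / 2 ^ m)) := by
      ring
    rw [e]
    calc (nn n₀ N i : ℝ) * |(takagi t - takagi ((j : ℝ) / 2 ^ m)) +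
          (takagi ((j : ℝ) / 2 ^ m) - takagi ((J k : ℝ) / 2 ^ m))|
        ≤ (nn n₀ N i : ℝ) * ((m + 1) * (1 / 2) ^ m + |F m (J k) - F m j|) := by
          apply mul_le_mul_of_nonneg_left _ hn0.le
          exact (abs_add_le _ _).trans (add_le_add hclose2 hd.2)
      _ ≤ c + (k - i + 1) * c := by
          rw [mul_add]
          exact add_le_add herr hnS
      _ = _ := by ring

/-! ### The operators -/

section Ops

variable {𝕜 : Type} [RCLike 𝕜]

theorem B_apply (f : X 𝕜) (k : ℕ) : (B 𝕜 f) k = f (k + 1) := rfl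

theorem T_apply_fst (x y : ℝ) (w : X 𝕜 × X 𝕜) (k : ℕ) :
    (T 𝕜 x y w).1 k = ((Real.exp x : ℝ) : 𝕜) * w.1 (k + 1) := rfl

theorem T_apply_snd (x y : ℝ) (w : X 𝕜 × X 𝕜) (k : ℕ) :
    (T 𝕜 x y w).2 k = ((Real.exp y : ℝ) : 𝕜) * w.2 (k + 1) := rfl

theorem T_pow_fst (x y : ℝ) (n : ℕ) (w : X 𝕜 × X 𝕜) (k : ℕ) :
    ((T 𝕜 x y ^ n) w).1 k = ((Real.exp (x * n) : ℝ) : 𝕜) * w.1 (k + n) := by
  induction n generalizing k with
  | zero => simp
  | succ n ih =>
    rw [pow_succ', mul_apply_eq_comp, T_apply_fst, ih, ← mul_assoc, ← RCLike.ofReal_mul,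
      ← Real.exp_add]
    have e1 : x + x * n = x * ((n + 1 : ℕ) : ℝ) := by push_cast; ring
    have e2 : k + 1 + n = k + (n + 1) := by ring
    rw [e1, e2]

theorem T_pow_snd (x y : ℝ) (n : ℕ) (w : X 𝕜 × X 𝕜) (k : ℕ) :
    ((T 𝕜 x y ^ n) w).2 k = ((Real.exp (y * n) : ℝ) : 𝕜) * w.2 (k + n) := by
  induction n generalizing k with
  | zero => simp
  | succ n ih =>
    rw [pow_succ', mul_apply_eq_comp, T_apply_snd, ih, ← mul_assoc, ← RCLike.ofReal_mul,
      ← Real.exp_add]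
    have e1 : y + y * n = y * ((n + 1 : ℕ) : ℝ) := by push_cast; ring
    have e2 : k + 1 + n = k + (n + 1) := by ring
    rw [e1, e2]

/-- Finitely supported sequences as elements of `c₀`. -/
noncomputable def ofFin (f : ℕ → 𝕜) (D : ℕ) (hf : ∀ k, D ≤ k → f k = 0) : X 𝕜 where
  toFun := f
  continuous_toFun := continuous_of_discreteTopology
  zero_at_infty' := by
    rw [cocompact_eq_cofinite, Nat.cofinite_eq_atTop]
    apply tendsto_const_nhds.congr'
    filter_upwards [eventually_ge_atTop D] with k hk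
    exact (hf k hk).symm

theorem ofFin_apply (f : ℕ → 𝕜) (D : ℕ) (hf : ∀ k, D ≤ k → f k = 0) (k : ℕ) :
    ofFin f D hf k = f k := rfl

/-- A block of shifted copies of `p`. -/
noncomputable def block (C : ℕ → ℝ) (r n₀ N : ℕ) (p : ℕ → 𝕜) (k : ℕ) : 𝕜 :=
  if n₀ ≤ k ∧ (k - n₀) / N < r then (C ((k - n₀) / N) : 𝕜) * p ((k - n₀) % N) else 0

theorem block_zero (C : ℕ → ℝ) (r n₀ : ℕ) {N : ℕ} (hN : 1 ≤ N) (p : ℕ → 𝕜) {k : ℕ}
    (hk : n₀ + r * N ≤ k) : block C r n₀ N p k = 0 := by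
  unfold block
  rw [if_neg]
  rintro ⟨_, h⟩
  rw [Nat.div_lt_iff_lt_mul hN] at h
  omega

theorem block_shift (C : ℕ → ℝ) (r n₀ : ℕ) {N : ℕ} (hN : 1 ≤ N) (p : ℕ → 𝕜) (i k : ℕ) :
    block C r n₀ N p (k + nn n₀ N i) =
      if i + k / N < r then (C (i + k / N) : 𝕜) * p (k % N) else 0 := by
  unfold block nn
  have e1 : k + (n₀ + i * N) - n₀ = k + i * N := by omega
  rw [e1, Nat.add_mul_div_right _ _ hN, Nat.add_mul_mod_self_right, Nat.add_comm (k / N) i]
  have e2 : n₀ ≤ k + (n₀ + i * N) := by omega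
  simp only [e2, true_and]

/-- The estimate in one coordinate. -/
theorem coordinate {α c ε M : ℝ} (hα : 0 < α) (hc : 0 < c) (hM : 1 ≤ M)
    (g : ℝ → ℝ) (hg : ∀ t, 0 ≤ g t) {n₀ N r d : ℕ} (hN : 1 ≤ N) (hd : d ≤ N)
    (p : ℕ → 𝕜) (hp : ∀ k, d ≤ k → p k = 0) (hpM : ∀ k, ‖p k‖ ≤ M)
    (on : ℕ → Prop) [DecidablePred on] (s : ℕ → ℝ) (h2c : 2 * c ≤ 1) (h4c : 4 * c * M ≤ ε)
    (hαN : 3 * c ≤ α * N) (hexp : Real.exp (-(α * N - 3 * c)) * M ≤ ε)
    (h0 : Real.exp (-(α * n₀)) * M ≤ ε) :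
    (∀ k, ‖block (fun i => if on i then Real.exp (-((α + g (s i)) * nn n₀ N i)) else 0)
      r n₀ N p k‖ ≤ ε) ∧
    ∀ t i, i < r → on i → (∀ k, i ≤ k → on k →
        (nn n₀ N i : ℝ) * |g t - g (s k)| ≤ (k - i + 2) * c) →
      ∀ k, ‖((Real.exp ((α + g t) * nn n₀ N i) : ℝ) : 𝕜) *
        block (fun i => if on i then Real.exp (-((α + g (s i)) * nn n₀ N i)) else 0)
          r n₀ N p (k + nn n₀ N i) - p k‖ ≤ ε := by
  have hε : 0 ≤ ε := le_trans (by positivity) h4c
  have hM0 : (0 : ℝ) ≤ M := by linarith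
  constructor
  · intro k
    unfold block
    by_cases h1 : n₀ ≤ k ∧ (k - n₀) / N < r
    · rw [if_pos h1, norm_mul, RCLike.norm_ofReal]
      beta_reduce
      by_cases h2 : on ((k - n₀) / N)
      · rw [if_pos h2, abs_of_pos (Real.exp_pos _)]
        refine le_trans (mul_le_mul ?_ (hpM _) (norm_nonneg _) (Real.exp_pos _).le) h0
        apply Real.exp_le_exp.2
        have h3 : (n₀ : ℝ) ≤ nn n₀ N ((k - n₀) / N) := by
          have : n₀ ≤ nn n₀ N ((k - n₀) / N) := by unfold nn; omega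
          exact_mod_cast this
        have h4 := hg (s ((k - n₀) / N))
        have h5 : (0 : ℝ) ≤ n₀ := Nat.cast_nonneg _
        nlinarith
      · rw [if_neg h2, abs_zero, zero_mul]
        exact hε
    · rw [if_neg h1, norm_zero]
      exact hε
  · intro t i hir hon hclose k
    rw [block_shift _ _ _ hN]
    rcases Nat.lt_or_ge k N with hk | hk
    · -- the main term
      have e1 : k / N = 0 := Nat.div_eq_of_lt hk
      have e2 : k % N = k := Nat.mod_eq_of_lt hk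
      rw [e1, e2, add_zero, if_pos hir, if_pos hon]
      rw [← mul_assoc, ← RCLike.ofReal_mul, ← Real.exp_add]
      set θ : ℝ := (α + g t) * nn n₀ N i + -((α + g (s i)) * nn n₀ N i) with hθ
      have hθ1 : |θ| ≤ 2 * c := by
        have h1 := hclose i le_rfl hon
        have e3 : θ = (nn n₀ N i : ℝ) * (g t - g (s i)) := by rw [hθ]; ring
        rw [e3, abs_mul, abs_of_nonneg (Nat.cast_nonneg _)]
        linarith
      have e4 : ((Real.exp θ : ℝ) : 𝕜) * p k - p k = ((Real.exp θ - 1 : ℝ) : 𝕜) * p k := by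
        push_cast; ring
      rw [e4, norm_mul, RCLike.norm_ofReal]
      have h2 := Real.abs_exp_sub_one_le (x := θ) (by linarith)
      calc |Real.exp θ - 1| * ‖p k‖ ≤ (4 * c) * M :=
            mul_le_mul (by linarith) (hpM k) (norm_nonneg _) (by linarith)
        _ ≤ ε := h4c
    · -- the later blocks
      rw [hp k (hd.trans hk), sub_zero]
      by_cases h1 : i + k / N < r
      · rw [if_pos h1, ← mul_assoc, norm_mul, norm_mul, RCLike.norm_ofReal, RCLike.norm_ofReal]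
        by_cases hon' : on (i + k / N)
        · rw [if_pos hon']
          rw [abs_of_pos (Real.exp_pos _), abs_of_pos (Real.exp_pos _), ← Real.exp_add]
          refine le_trans (mul_le_mul ?_ (hpM _) (norm_nonneg _) (Real.exp_pos _).le) hexp
          apply Real.exp_le_exp.2
          set l := k / N with hl
          have hl1 : 1 ≤ l := by
            rw [hl, Nat.le_div_iff_mul_le hN]; omega
          have hl1' : (1 : ℝ) ≤ l := by exact_mod_cast hl1
          have h2 := hclose (i + l) (by omega) hon'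
          have h3 : (nn n₀ N (i + l) : ℝ) = nn n₀ N i + l * N := by
            unfold nn; push_cast; ring
          have h4 := hg (s (i + l))
          have h5 : (nn n₀ N i : ℝ) * (g t - g (s (i + l))) ≤ (l + 2) * c := by
            refine le_trans (mul_le_mul_of_nonneg_left (le_abs_self _) (Nat.cast_nonneg _)) ?_
            refine h2.trans (le_of_eq ?_)
            push_cast; ring
          have h6 : (α + g t) * nn n₀ N i + -((α + g (s (i + l))) * nn n₀ N (i + l)) =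
              (nn n₀ N i : ℝ) * (g t - g (s (i + l))) - (α + g (s (i + l))) * (l * N) := by
            rw [h3]; ring
          rw [h6]
          have h7 : 0 ≤ g (s (i + l)) * (l * N) := by positivity
          have h8 : (α * N - 3 * c) * 1 ≤ (α * N - 3 * c) * l :=
            mul_le_mul_of_nonneg_left hl1' (by linarith)
          nlinarith
        · rw [if_neg hon', abs_zero, mul_zero, zero_mul]
          exact hε
      · rw [if_neg h1, mul_zero, norm_zero]
        exact hε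

/-- The block lemma. -/
theorem block_lemma {a b : ℝ} (ha : 0 < a) (hb : 0 < b) {d : ℕ} (p q : ℕ → 𝕜)
    (hp : ∀ k, d ≤ k → p k = 0) (hq : ∀ k, d ≤ k → q k = 0) {ε : ℝ} (hε : 0 < ε) (n₁ : ℕ) :
    ∃ (w : X 𝕜 × X 𝕜) (R : ℕ), ‖w‖ ≤ ε ∧ ∀ t : ℝ, 0 ≤ t → t ≤ 1 → ∃ n, n₁ ≤ n ∧ n ≤ R ∧
      (∀ k, ‖((T 𝕜 (a + t) (b + takagi t) ^ n) w).1 k - p k‖ ≤ ε) ∧
      (∀ k, ‖((T 𝕜 (a + t) (b + takagi t) ^ n) w).2 k - q k‖ ≤ ε) := by
  classical
  set M : ℝ := 1 + (∑ k ∈ Finset.range d, ‖p k‖) + ∑ k ∈ Finset.range d, ‖q k‖ with hM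
  have hs1 : 0 ≤ ∑ k ∈ Finset.range d, ‖p k‖ := Finset.sum_nonneg fun _ _ => norm_nonneg _
  have hs2 : 0 ≤ ∑ k ∈ Finset.range d, ‖q k‖ := Finset.sum_nonneg fun _ _ => norm_nonneg _
  have hM1 : 1 ≤ M := by linarith
  have hpM : ∀ k, ‖p k‖ ≤ M := by
    intro k
    rcases Nat.lt_or_ge k d with h | h
    · have := Finset.single_le_sum (f := fun k => ‖p k‖) (fun i _ => norm_nonneg _)
        (Finset.mem_range.2 h)
      linarith
    · rw [hp k h, norm_zero]; linarith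
  have hqM : ∀ k, ‖q k‖ ≤ M := by
    intro k
    rcases Nat.lt_or_ge k d with h | h
    · have := Finset.single_le_sum (f := fun k => ‖q k‖) (fun i _ => norm_nonneg _)
        (Finset.mem_range.2 h)
      linarith
    · rw [hq k h, norm_zero]; linarith
  set α := min a b with hα
  have hα0 : 0 < α := lt_min ha hb
  set c : ℝ := min (1 / 2) (ε / (4 * M)) with hc
  have hc0 : 0 < c := lt_min (by norm_num) (by positivity)
  have h2c : 2 * c ≤ 1 := by
    have := min_le_left (1 / 2) (ε / (4 * M))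
    linarith
  have h4c : 4 * c * M ≤ ε := by
    have h1 : c ≤ ε / (4 * M) := min_le_right _ _
    rw [le_div_iff₀ (by positivity)] at h1
    linarith
  -- small exponentials
  have hexp : Tendsto (fun n : ℕ => Real.exp (-(α * n - 3 * c)) * M) atTop (𝓝 0) := by
    have h1 : Tendsto (fun n : ℕ => α * (n : ℝ) - 3 * c) atTop atTop := by
      apply tendsto_atTop_add_const_right
      exact tendsto_natCast_atTop_atTop.const_mul_atTop hα0
    have h2 := (Real.tendsto_exp_neg_atTop_nhds_zero.comp h1).mul_const M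
    rw [zero_mul] at h2
    exact h2
  have hexp' : Tendsto (fun n : ℕ => Real.exp (-(α * n)) * M) atTop (𝓝 0) := by
    have h1 : Tendsto (fun n : ℕ => α * (n : ℝ)) atTop atTop :=
      tendsto_natCast_atTop_atTop.const_mul_atTop hα0
    have h2 := (Real.tendsto_exp_neg_atTop_nhds_zero.comp h1).mul_const M
    rw [zero_mul] at h2
    exact h2
  have hlin : ∀ᶠ n : ℕ in atTop, 3 * c ≤ α * n :=
    (tendsto_natCast_atTop_atTop.const_mul_atTop hα0).eventually_ge_atTop _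
  obtain ⟨N, ⟨⟨hN1, hN2⟩, hN3⟩⟩ := (((hexp.eventually (ge_mem_nhds hε)).and hlin).and
    (eventually_ge_atTop (d + 1))).exists
  obtain ⟨n₀, hn1, hn2⟩ := ((hexp'.eventually (ge_mem_nhds hε)).and
    (eventually_ge_atTop (n₁ + 1))).exists
  obtain ⟨r, on, s, hs, hcov⟩ := centres hc0 (n₀ := n₀) (N := N) (by omega)
  have hN0 : 1 ≤ N := by omega
  -- monotonicity in the exponent
  have hmono : ∀ x : ℝ, α ≤ x → (3 * c ≤ x * N ∧ Real.exp (-(x * N - 3 * c)) * M ≤ ε ∧
      Real.exp (-(x * n₀)) * M ≤ ε) := by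
    intro x hx
    have hNn : (0 : ℝ) ≤ N := Nat.cast_nonneg _
    have hnn : (0 : ℝ) ≤ n₀ := Nat.cast_nonneg _
    refine ⟨?_, ?_, ?_⟩
    · nlinarith
    · refine le_trans (mul_le_mul_of_nonneg_right (Real.exp_le_exp.2 ?_) (by linarith)) hN1
      nlinarith
    · refine le_trans (mul_le_mul_of_nonneg_right (Real.exp_le_exp.2 ?_) (by linarith)) hn1
      nlinarith
  obtain ⟨a1, a2, a3⟩ := hmono a (min_le_left _ _)
  obtain ⟨b1, b2, b3⟩ := hmono b (min_le_right _ _)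
  -- the parameter functions are made nonnegative everywhere
  set gx : ℝ → ℝ := fun t => |t| with hgx
  obtain ⟨x1, x2⟩ := coordinate ha hc0 hM1 gx (fun t => abs_nonneg t) (n₀ := n₀) (r := r) hN0
    (by omega) p hp hpM on s h2c h4c a1 a2 a3
  obtain ⟨y1, y2⟩ := coordinate hb hc0 hM1 takagi takagi_nonneg (n₀ := n₀) (r := r) hN0
    (by omega) q hq hqM on s h2c h4c b1 b2 b3
  set u : X 𝕜 := ofFin _ _ fun k hk => block_zero
    (fun i => if on i then Real.exp (-((a + gx (s i)) * nn n₀ N i)) else 0) r n₀ hN0 p hk with hu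
  set v : X 𝕜 := ofFin _ _ fun k hk => block_zero
    (fun i => if on i then Real.exp (-((b + takagi (s i)) * nn n₀ N i)) else 0) r n₀ hN0 q hk
    with hv
  refine ⟨(u, v), nn n₀ N r, ?_, ?_⟩
  · rw [Prod.norm_def]
    exact max_le ((norm_le hε.le).2 x1) ((norm_le hε.le).2 y1)
  · intro t ht0 ht1
    obtain ⟨i, hir, hon, hi⟩ := hcov t ht0 ht1
    refine ⟨nn n₀ N i, ?_, ?_, ?_, ?_⟩
    · unfold nn; omega
    · unfold nn
      exact Nat.add_le_add_left (Nat.mul_le_mul_right _ hir.le) _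
    · intro k
      rw [T_pow_fst]
      have h1 := x2 t i hir hon (fun k hk hok => by
        have h2 := (hi k hk hok).1
        have h3 : gx t - gx (s k) = t - s k := by
          simp only [hgx]
          rw [abs_of_nonneg ht0, abs_of_nonneg (hs k).1]
        rw [h3]
        exact h2) k
      have h4 : gx t = t := abs_of_nonneg ht0
      rw [h4] at h1
      exact h1
    · intro k
      rw [T_pow_snd]
      exact y2 t i hir hon (fun k hk hok => (hi k hk hok).2) k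

theorem norm_T_pow_le {a b K : ℝ} (ha : a + 1 ≤ K) (hb : b + 1 ≤ K) {t : ℝ}
    (ht1 : t ≤ 1) (n : ℕ) (w : X 𝕜 × X 𝕜) :
    ‖(T 𝕜 (a + t) (b + takagi t) ^ n) w‖ ≤ Real.exp (K * n) * ‖w‖ := by
  have hn : (0 : ℝ) ≤ n := Nat.cast_nonneg _
  have h1 : ‖w.1‖ ≤ ‖w‖ := le_max_left _ _
  have h2 : ‖w.2‖ ≤ ‖w‖ := le_max_right _ _
  have h3 := takagi_le_one t
  have h0 : 0 ≤ Real.exp (K * n) * ‖w‖ := by positivity
  rw [Prod.norm_def]
  apply max_le
  · rw [norm_le h0]
    intro k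
    rw [T_pow_fst, norm_mul, RCLike.norm_ofReal, abs_of_pos (Real.exp_pos _)]
    apply mul_le_mul _ ((apply_le _ _).trans h1) (norm_nonneg _) (Real.exp_pos _).le
    apply Real.exp_le_exp.2
    exact mul_le_mul_of_nonneg_right (by linarith) hn
  · rw [norm_le h0]
    intro k
    rw [T_pow_snd, norm_mul, RCLike.norm_ofReal, abs_of_pos (Real.exp_pos _)]
    apply mul_le_mul _ ((apply_le _ _).trans h2) (norm_nonneg _) (Real.exp_pos _).le
    apply Real.exp_le_exp.2
    exact mul_le_mul_of_nonneg_right (by linarith) hn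

/-- Truncation. -/
theorem truncate (f : X 𝕜) {η : ℝ} (hη : 0 < η) : ∃ D : ℕ, ∀ k, D ≤ k → ‖f k‖ ≤ η := by
  have h := f.zero_at_infty'
  rw [cocompact_eq_cofinite, Nat.cofinite_eq_atTop] at h
  have h2 := (tendsto_zero_iff_norm_tendsto_zero.1 h).eventually (ge_mem_nhds hη)
  exact eventually_atTop.1 h2

/-- Finitely supported approximation. -/
theorem approx (f : X 𝕜) {η : ℝ} (hη : 0 < η) : ∃ (D : ℕ) (f₀ : X 𝕜),
    (∀ k, D ≤ k → f₀ k = 0) ∧ ‖f - f₀‖ ≤ η := by
  obtain ⟨D, hD⟩ := truncate f hη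
  refine ⟨D, ofFin (fun k => if k < D then f k else 0) D (fun k hk => by
    rw [if_neg (by omega)]), fun k hk => ?_, ?_⟩
  · rw [ofFin_apply, if_neg (by omega)]
  · rw [norm_le hη.le]
    intro k
    rw [ZeroAtInftyContinuousMap.sub_apply, ofFin_apply]
    split_ifs with h
    · rw [sub_self, norm_zero]; exact hη.le
    · rw [sub_zero]; exact hD k (by omega)

/-- The sets of the Baire argument. -/
def U (a b : ℝ) (P : X 𝕜 × X 𝕜) (ε : ℝ) : Set (X 𝕜 × X 𝕜) :=
  {w | ∀ t : ℝ, 0 ≤ t → t ≤ 1 → ∃ n : ℕ, ‖(T 𝕜 (a + t) (b + takagi t) ^ n) w - P‖ < ε}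

theorem dense_U {a b : ℝ} (ha : 0 < a) (hb : 0 < b) (P : X 𝕜 × X 𝕜) {d : ℕ}
    (hP1 : ∀ k, d ≤ k → P.1 k = 0) (hP2 : ∀ k, d ≤ k → P.2 k = 0) {ε : ℝ} (hε : 0 < ε) :
    Dense (interior (U a b P ε)) := by
  rw [Metric.dense_iff]
  intro w' η hη
  obtain ⟨D1, f₀, hf0, hf⟩ := approx w'.1 (show 0 < η / 4 by linarith)
  obtain ⟨D2, g₀, hg0, hg⟩ := approx w'.2 (show 0 < η / 4 by linarith)
  set ε' := min (η / 4) (ε / 4) with hε'
  have hε'0 : 0 < ε' := lt_min (by linarith) (by linarith)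
  obtain ⟨w, R, hw, hR⟩ := block_lemma ha hb P.1 P.2 hP1 hP2 hε'0 (max D1 D2)
  set w₀ : X 𝕜 × X 𝕜 := (f₀, g₀) with hw0
  refine ⟨w₀ + w, ?_, ?_⟩
  · rw [Metric.mem_ball, dist_eq_norm]
    have h1 : ‖w₀ - w'‖ ≤ η / 4 := by
      rw [Prod.norm_def]
      apply max_le
      · rw [Prod.fst_sub, norm_sub_rev]; exact hf
      · rw [Prod.snd_sub, norm_sub_rev]; exact hg
    have h2 : w₀ + w - w' = (w₀ - w') + w := by abel
    rw [h2]
    have h3 : ε' ≤ η / 4 := min_le_left _ _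
    exact (norm_add_le _ _).trans_lt (by linarith)
  · set K := max (a + 1) (b + 1) with hK
    rw [mem_interior_iff_mem_nhds, Metric.mem_nhds_iff]
    refine ⟨ε / 4 / Real.exp (K * R), by positivity, ?_⟩
    intro z hz t ht0 ht1
    obtain ⟨n, hn1, hn2, hx, hy⟩ := hR t ht0 ht1
    refine ⟨n, ?_⟩
    rw [Metric.mem_ball, dist_eq_norm] at hz
    have hK0 : 0 ≤ K := le_trans (by linarith) (le_max_left (a + 1) (b + 1))
    have h1 : ‖(T 𝕜 (a + t) (b + takagi t) ^ n) (z - (w₀ + w))‖ ≤ ε / 4 := by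
      refine (norm_T_pow_le (K := K) (le_max_left _ _) (le_max_right _ _) ht1 n _).trans ?_
      have h2 : Real.exp (K * n) ≤ Real.exp (K * R) := by
        apply Real.exp_le_exp.2
        exact mul_le_mul_of_nonneg_left (by exact_mod_cast hn2) hK0
      calc Real.exp (K * n) * ‖z - (w₀ + w)‖
          ≤ Real.exp (K * R) * (ε / 4 / Real.exp (K * R)) :=
            mul_le_mul h2 hz.le (norm_nonneg _) (Real.exp_pos _).le
        _ = ε / 4 := by field_simp
    have h2 : ‖(T 𝕜 (a + t) (b + takagi t) ^ n) (w₀ + w) - P‖ ≤ ε / 4 := by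
      have h3 : ε' ≤ ε / 4 := min_le_right _ _
      rw [Prod.norm_def]
      apply max_le
      · rw [norm_le (by linarith)]
        intro k
        rw [Prod.fst_sub, ZeroAtInftyContinuousMap.sub_apply, T_pow_fst, Prod.fst_add,
          ZeroAtInftyContinuousMap.add_apply]
        have h4 : w₀.1 (k + n) = 0 := hf0 _ (by omega)
        rw [h4, zero_add]
        have h5 := hx k
        rw [T_pow_fst] at h5
        linarith
      · rw [norm_le (by linarith)]
        intro k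
        rw [Prod.snd_sub, ZeroAtInftyContinuousMap.sub_apply, T_pow_snd, Prod.snd_add,
          ZeroAtInftyContinuousMap.add_apply]
        have h4 : w₀.2 (k + n) = 0 := hg0 _ (by omega)
        rw [h4, zero_add]
        have h5 := hy k
        rw [T_pow_snd] at h5
        linarith
    have h3 : (T 𝕜 (a + t) (b + takagi t) ^ n) z - P =
        (T 𝕜 (a + t) (b + takagi t) ^ n) (z - (w₀ + w)) +
          ((T 𝕜 (a + t) (b + takagi t) ^ n) (w₀ + w) - P) := by
      rw [map_sub]; abel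
    rw [h3]
    exact (norm_add_le _ _).trans_lt (by linarith)

/-- Countably many finitely supported sequences. -/
noncomputable def Q (l : List ℕ) : X 𝕜 :=
  ofFin (fun k => if k < l.length then TopologicalSpace.denseSeq 𝕜 (l.getD k 0) else 0) l.length
    (fun k hk => by rw [if_neg (by omega)])

theorem Q_zero (l : List ℕ) (k : ℕ) (hk : l.length ≤ k) : (Q l : X 𝕜) k = 0 := by
  unfold Q
  rw [ofFin_apply, if_neg (by omega)]

theorem Q_dense (f : X 𝕜) {η : ℝ} (hη : 0 < η) : ∃ l : List ℕ, ‖Q l - f‖ ≤ η := by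
  obtain ⟨D, hD⟩ := truncate f hη
  have h1 : ∀ k, ∃ i, ‖TopologicalSpace.denseSeq 𝕜 i - f k‖ < η := by
    intro k
    obtain ⟨i, hi⟩ := (TopologicalSpace.denseRange_denseSeq 𝕜).exists_dist_lt (f k) hη
    refine ⟨i, ?_⟩
    rw [← dist_eq_norm, dist_comm]
    exact hi
  choose i hi using h1
  refine ⟨(List.range D).map i, ?_⟩
  rw [norm_le hη.le]
  intro k
  rw [ZeroAtInftyContinuousMap.sub_apply]
  unfold Q
  rw [ofFin_apply, List.length_map, List.length_range]
  split_ifs with h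
  · have h2 : ((List.range D).map i).getD k 0 = i k := by
      rw [List.getD_eq_getElem _ _ (by simpa using h)]
      simp
    rw [h2]
    exact (hi k).le
  · rw [zero_sub, norm_neg]
    exact hD k (by omega)

end Ops

/-- **Main theorem.** For all `a, b > 0`, the operators `e^(a+t) B × e^(b+takagi t) B`,
`t ∈ [0, 1]`, on `c₀(ℕ) × c₀(ℕ)` (real or complex) have a common hypercyclic vector. -/
theorem result (𝕜 : Type) [RCLike 𝕜] (a b : ℝ) (ha : 0 < a) (hb : 0 < b) :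
    ∃ w : X 𝕜 × X 𝕜, ∀ t ∈ Set.Icc (0 : ℝ) 1,
      Dense (Set.range fun n : ℕ => (T 𝕜 (a + t) (b + takagi t) ^ n) w) := by
  have h1 : Dense (⋂ i : (List ℕ × List ℕ) × ℕ,
      interior (U a b ((Q i.1.1, Q i.1.2) : X 𝕜 × X 𝕜) (1 / ((i.2 : ℝ) + 1)))) := by
    apply dense_iInter_of_isOpen (fun _ => isOpen_interior)
    intro i
    exact dense_U ha hb _ (d := max i.1.1.length i.1.2.length)
      (fun k hk => Q_zero _ _ (by omega)) (fun k hk => Q_zero _ _ (by omega))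
      (by positivity)
  obtain ⟨w, hw⟩ := h1.nonempty
  rw [Set.mem_iInter] at hw
  refine ⟨w, fun t ht => ?_⟩
  rw [Metric.dense_iff]
  intro z ε hε
  obtain ⟨l1, hl1⟩ := Q_dense z.1 (show 0 < ε / 2 by linarith)
  obtain ⟨l2, hl2⟩ := Q_dense z.2 (show 0 < ε / 2 by linarith)
  obtain ⟨j, hj⟩ := exists_nat_one_div_lt (show 0 < ε / 2 by linarith)
  obtain ⟨n, hn⟩ := interior_subset (hw ((l1, l2), j)) t ht.1 ht.2
  refine ⟨_, ?_, ⟨n, rfl⟩⟩
  rw [Metric.mem_ball, dist_eq_norm]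
  have h2 : ‖((Q l1, Q l2) : X 𝕜 × X 𝕜) - z‖ ≤ ε / 2 := by
    rw [Prod.norm_def]
    exact max_le hl1 hl2
  have h3 : (T 𝕜 (a + t) (b + takagi t) ^ n) w - z =
      ((T 𝕜 (a + t) (b + takagi t) ^ n) w - (Q l1, Q l2)) + ((Q l1, Q l2) - z) := by abel
  rw [h3]
  refine (norm_add_le _ _).trans_lt ?_
  have hn' : ‖(T 𝕜 (a + t) (b + takagi t) ^ n) w - (Q l1, Q l2)‖ < 1 / ((j : ℝ) + 1) := hn
  linarith

end Pool.Agent.Results.MP_c0f49b_an.TakagiGraph
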